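import Mathlib

set_option autoImplicit false

namespace Pool.Agent.Results.MP_078f6d_al.PositiveBasis

open TensorProduct

universe u v w

section Phi

variable (k : Type u) (H : Type v) [Field k] [Ring H] [HopfAlgebra k H]

/-- The map `Φ_H = (id ⊗ m)(Δ ⊗ id)`, that is `x ⊗ y ↦ x₍₁₎ ⊗ x₍₂₎ y`. -/
noncomputable def Phi : H ⊗[k] H →ₗ[k] H ⊗[k] H :=
  LinearMap.lTensor H (LinearMap.mul' k H) ∘ₗ
    (TensorProduct.assoc k H H H).toLinearMap ∘ₗ
      LinearMap.rTensor H (Coalgebra.comul (R := k) (A := H))

variable {k H}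

theorem Phi_tmul (x y : H) : Phi k H (x ⊗ₜ[k] y) =
    LinearMap.lTensor H (LinearMap.mulRight k y) (Coalgebra.comul (R := k) x) := by
  unfold Phi
  simp only [LinearMap.comp_apply, LinearMap.rTensor_tmul, LinearEquiv.coe_coe]
  generalize (Coalgebra.comul (R := k) x : H ⊗[k] H) = t
  induction t with
  | zero => simp
  | tmul a b => simp
  | add a b ha hb => simp only [TensorProduct.add_tmul, map_add, ha, hb]

theorem Phi_aux (g : H →ₗ[k] H) (x : H) :
    Phi k H (LinearMap.lTensor H g (Coalgebra.comul (R := k) x)) =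
      LinearMap.lTensor H (LinearMap.mul' k H ∘ₗ LinearMap.lTensor H g ∘ₗ
        Coalgebra.comul (R := k) (A := H)) (Coalgebra.comul (R := k) x) := by
  have h1 : ∀ t : H ⊗[k] H, Phi k H (LinearMap.lTensor H g t) =
      LinearMap.lTensor H (LinearMap.mul' k H ∘ₗ LinearMap.lTensor H g)
        ((TensorProduct.assoc k H H H)
          (LinearMap.rTensor H (Coalgebra.comul (R := k) (A := H)) t)) := by
    intro t
    induction t with
    | zero => simp
    | add a b ha hb => simp only [map_add, ha, hb]
    | tmul a b =>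
      rw [LinearMap.lTensor_tmul, Phi_tmul, LinearMap.rTensor_tmul]
      generalize (Coalgebra.comul (R := k) a : H ⊗[k] H) = s
      induction s with
      | zero => simp
      | tmul c d => simp
      | add c d hc hd => simp only [TensorProduct.add_tmul, map_add, hc, hd]
  rw [h1, Coalgebra.coassoc_apply]
  simp only [LinearMap.lTensor_comp_apply]

/-- The inverse of `Φ_H`: `x ⊗ y ↦ x₍₁₎ ⊗ S(x₍₂₎) y`. -/
noncomputable def Psi (k : Type u) (H : Type v) [Field k] [Ring H] [HopfAlgebra k H] :
    H ⊗[k] H →ₗ[k] H ⊗[k] H :=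
  LinearMap.lTensor H (LinearMap.mul' k H ∘ₗ LinearMap.rTensor H (HopfAlgebra.antipode k)) ∘ₗ
    (TensorProduct.assoc k H H H).toLinearMap ∘ₗ
      LinearMap.rTensor H (Coalgebra.comul (R := k) (A := H))

theorem Psi_tmul (x y : H) : Psi k H (x ⊗ₜ[k] y) =
    LinearMap.lTensor H (LinearMap.mulRight k y ∘ₗ HopfAlgebra.antipode k)
      (Coalgebra.comul (R := k) x) := by
  unfold Psi
  simp only [LinearMap.comp_apply, LinearMap.rTensor_tmul, LinearEquiv.coe_coe]
  generalize (Coalgebra.comul (R := k) x : H ⊗[k] H) = t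
  induction t with
  | zero => simp
  | tmul a b => simp
  | add a b ha hb => simp only [TensorProduct.add_tmul, map_add, ha, hb]

theorem Psi_aux (g : H →ₗ[k] H) (x : H) :
    Psi k H (LinearMap.lTensor H g (Coalgebra.comul (R := k) x)) =
      LinearMap.lTensor H (LinearMap.mul' k H ∘ₗ
        TensorProduct.map (HopfAlgebra.antipode k) g ∘ₗ
        Coalgebra.comul (R := k) (A := H)) (Coalgebra.comul (R := k) x) := by
  have h1 : ∀ t : H ⊗[k] H, Psi k H (LinearMap.lTensor H g t) =
      LinearMap.lTensor H (LinearMap.mul' k H ∘ₗ TensorProduct.map (HopfAlgebra.antipode k) g)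
        ((TensorProduct.assoc k H H H)
          (LinearMap.rTensor H (Coalgebra.comul (R := k) (A := H)) t)) := by
    intro t
    induction t with
    | zero => simp
    | add a b ha hb => simp only [map_add, ha, hb]
    | tmul a b =>
      rw [LinearMap.lTensor_tmul, Psi_tmul, LinearMap.rTensor_tmul]
      generalize (Coalgebra.comul (R := k) a : H ⊗[k] H) = s
      induction s with
      | zero => simp
      | tmul c d => simp
      | add c d hc hd => simp only [TensorProduct.add_tmul, map_add, hc, hd]
  rw [h1, Coalgebra.coassoc_apply]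
  simp only [LinearMap.lTensor_comp_apply]

theorem counit_sum (x y : H) :
    LinearMap.lTensor H ((LinearMap.toSpanSingleton k H y) ∘ₗ
      Coalgebra.counit (R := k) (A := H)) (Coalgebra.comul (R := k) x) = x ⊗ₜ[k] y := by
  rw [LinearMap.lTensor_comp_apply, Coalgebra.lTensor_counit_comul]
  simp

theorem Phi_Psi (t : H ⊗[k] H) : Phi k H (Psi k H t) = t := by
  induction t with
  | zero => simp
  | add a b ha hb => simp only [map_add, ha, hb]
  | tmul x y =>
    rw [Psi_tmul, Phi_aux]
    have : LinearMap.mul' k H ∘ₗ LinearMap.lTensor H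
        (LinearMap.mulRight k y ∘ₗ HopfAlgebra.antipode k) ∘ₗ Coalgebra.comul (R := k) (A := H) =
        (LinearMap.toSpanSingleton k H y) ∘ₗ Coalgebra.counit (R := k) (A := H) := by
      ext z
      have h := HopfAlgebra.mul_antipode_lTensor_comul_apply (R := k) z
      have h2 : ∀ s : H ⊗[k] H, LinearMap.mul' k H
          (LinearMap.lTensor H (LinearMap.mulRight k y ∘ₗ HopfAlgebra.antipode k) s) =
          LinearMap.mul' k H (LinearMap.lTensor H (HopfAlgebra.antipode k) s) * y := by
        intro s
        induction s with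
        | zero => simp
        | tmul c d => simp [mul_assoc]
        | add c d hc hd => simp only [map_add, hc, hd, add_mul]
      simp only [LinearMap.comp_apply, h2, h, LinearMap.toSpanSingleton_apply]
      rw [Algebra.smul_def]
    rw [this, counit_sum]

theorem Psi_Phi (t : H ⊗[k] H) : Psi k H (Phi k H t) = t := by
  induction t with
  | zero => simp
  | add a b ha hb => simp only [map_add, ha, hb]
  | tmul x y =>
    rw [Phi_tmul, Psi_aux]
    have : LinearMap.mul' k H ∘ₗ TensorProduct.map (HopfAlgebra.antipode k)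
        (LinearMap.mulRight k y) ∘ₗ Coalgebra.comul (R := k) (A := H) =
        (LinearMap.toSpanSingleton k H y) ∘ₗ Coalgebra.counit (R := k) (A := H) := by
      ext z
      have h := HopfAlgebra.mul_antipode_rTensor_comul_apply (R := k) z
      have h2 : ∀ s : H ⊗[k] H, LinearMap.mul' k H
          (TensorProduct.map (HopfAlgebra.antipode k) (LinearMap.mulRight k y) s) =
          LinearMap.mul' k H (LinearMap.rTensor H (HopfAlgebra.antipode k) s) * y := by
        intro s
        induction s with
        | zero => simp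
        | tmul c d => simp [mul_assoc]
        | add c d hc hd => simp only [map_add, hc, hd, add_mul]
      simp only [LinearMap.comp_apply, h2, h, LinearMap.toSpanSingleton_apply]
      rw [Algebra.smul_def]
    rw [this, counit_sum]

end Phi

section Formulas

variable {k : Type u} {H : Type v} [Field k] [Ring H] [HopfAlgebra k H]

theorem counit_left_Phi (x y : H) :
    TensorProduct.lid k H (LinearMap.rTensor H (Coalgebra.counit (R := k) (A := H))
      (Phi k H (x ⊗ₜ[k] y))) = x * y := by
  rw [Phi_tmul]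
  have h : ∀ t : H ⊗[k] H, TensorProduct.lid k H (LinearMap.rTensor H
      (Coalgebra.counit (R := k) (A := H)) (LinearMap.lTensor H (LinearMap.mulRight k y) t)) =
      (TensorProduct.lid k H (LinearMap.rTensor H
      (Coalgebra.counit (R := k) (A := H)) t)) * y := by
    intro t
    induction t with
    | zero => simp
    | tmul c d => simp
    | add c d hc hd => simp only [map_add, hc, hd, add_mul]
  rw [h, Coalgebra.rTensor_counit_comul]
  simp

theorem counit_right_Phi (x y : H) :
    TensorProduct.rid k H (LinearMap.lTensor H (Coalgebra.counit (R := k) (A := H))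
      (Phi k H (x ⊗ₜ[k] y))) = Coalgebra.counit (R := k) y • x := by
  rw [Phi_tmul]
  have h : ∀ t : H ⊗[k] H, TensorProduct.rid k H (LinearMap.lTensor H
      (Coalgebra.counit (R := k) (A := H)) (LinearMap.lTensor H (LinearMap.mulRight k y) t)) =
      Coalgebra.counit (R := k) y • (TensorProduct.rid k H (LinearMap.lTensor H
      (Coalgebra.counit (R := k) (A := H)) t)) := by
    intro t
    induction t with
    | zero => simp
    | tmul c d =>
      simp only [LinearMap.lTensor_tmul, LinearMap.mulRight_apply, TensorProduct.rid_tmul,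
        Bialgebra.counit_mul, smul_smul]
      rw [mul_comm]
    | add c d hc hd => simp only [map_add, hc, hd, smul_add]
  rw [h, Coalgebra.lTensor_counit_comul]
  simp

theorem counit_left_Psi (x y : H) :
    TensorProduct.lid k H (LinearMap.rTensor H (Coalgebra.counit (R := k) (A := H))
      (Psi k H (x ⊗ₜ[k] y))) = HopfAlgebra.antipode k x * y := by
  rw [Psi_tmul]
  have h : ∀ t : H ⊗[k] H, TensorProduct.lid k H (LinearMap.rTensor H
      (Coalgebra.counit (R := k) (A := H))
      (LinearMap.lTensor H (LinearMap.mulRight k y ∘ₗ HopfAlgebra.antipode k) t)) =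
      HopfAlgebra.antipode k (TensorProduct.lid k H (LinearMap.rTensor H
      (Coalgebra.counit (R := k) (A := H)) t)) * y := by
    intro t
    induction t with
    | zero => simp
    | tmul c d => simp
    | add c d hc hd => simp only [map_add, hc, hd, add_mul]
  rw [h, Coalgebra.rTensor_counit_comul]
  simp

theorem Phi_one_left (y : H) : Phi k H (1 ⊗ₜ[k] y) = 1 ⊗ₜ[k] y := by
  rw [Phi_tmul, Bialgebra.comul_one, Algebra.TensorProduct.one_def]
  simp

theorem Phi_one_right (x : H) : Phi k H (x ⊗ₜ[k] 1) = Coalgebra.comul (R := k) x := by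
  rw [Phi_tmul]
  simp

end Formulas

section Positivity

/-- `x` is nonnegative: its image under the embedding `σ` is a real number `≥ 0`. -/
def Nonneg {k : Type u} [Field k] (σ : k →+* ℂ) (x : k) : Prop :=
  ∃ r : ℝ, 0 ≤ r ∧ σ x = (r : ℂ)

theorem nonneg_zero {k : Type u} [Field k] (σ : k →+* ℂ) : Nonneg σ 0 := ⟨0, le_rfl, by simp⟩

theorem nonneg_one {k : Type u} [Field k] (σ : k →+* ℂ) : Nonneg σ 1 :=
  ⟨1, zero_le_one, by simp⟩

theorem nonneg_add {k : Type u} [Field k] {σ : k →+* ℂ} {x y : k} (hx : Nonneg σ x)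
    (hy : Nonneg σ y) : Nonneg σ (x + y) := by
  obtain ⟨r, hr, h1⟩ := hx
  obtain ⟨s, hs, h2⟩ := hy
  exact ⟨r + s, add_nonneg hr hs, by rw [map_add, h1, h2]; push_cast; rfl⟩

theorem nonneg_sum {k : Type u} [Field k] {σ : k →+* ℂ} {ι : Type w} (s : Finset ι) (f : ι → k)
    (h : ∀ i ∈ s, Nonneg σ (f i)) : Nonneg σ (∑ i ∈ s, f i) :=
  Finset.sum_induction f (Nonneg σ) (fun _ _ => nonneg_add) (nonneg_zero σ) h

theorem nonneg_zero_one {k : Type u} [Field k] (σ : k →+* ℂ) {x : k} (h : x = 0 ∨ x = 1) :
    Nonneg σ x := by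
  rcases h with rfl | rfl
  · exact nonneg_zero σ
  · exact nonneg_one σ

variable (k : Type u) (H : Type v) [Field k] [Ring H] [HopfAlgebra k H] {ι : Type w}

/-- A basis `b` of `H` is `Φ`-set theoretic: `Φ_H` maps `b i ⊗ b j` to some `b i' ⊗ b j'`. -/
def IsPhiSetTheoretic (b : Module.Basis ι k H) : Prop :=
  ∀ i j : ι, ∃ i' j' : ι, Phi k H (b i ⊗ₜ[k] b j) = b i' ⊗ₜ[k] b j'

/-- The conditions (1)-(5) of a positive basis. -/
structure IsPositiveBasis (σ : k →+* ℂ) (b : Module.Basis ι k H) : Prop where
  one : ∀ i, Nonneg σ (b.repr 1 i)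
  counit : ∀ i, Nonneg σ (Coalgebra.counit (R := k) (b i))
  mul : ∀ i j l, Nonneg σ (b.repr (b i * b j) l)
  comul : ∀ i l m, Nonneg σ ((b.tensorProduct b).repr (Coalgebra.comul (R := k) (b i)) (l, m))
  antipode : ∀ i l, Nonneg σ (b.repr (HopfAlgebra.antipode k (b i)) l)

end Positivity

section Main

variable {k : Type u} {H : Type v} [Field k] [Ring H] [HopfAlgebra k H] {ι : Type w}

theorem tmul_eq (b : Module.Basis ι k H) {i j i' j' : ι}
    (h : b i ⊗ₜ[k] b j = b i' ⊗ₜ[k] b j') : i = i' ∧ j = j' := by
  rw [← Module.Basis.tensorProduct_apply b b i j, ← Module.Basis.tensorProduct_apply b b i' j'] at h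
  have := (b.tensorProduct b).injective h
  exact Prod.mk.inj this

/-- `Φ` acts on the basis through `(α, β)`. -/
def Acts (b : Module.Basis ι k H) (α β : ι → ι → ι) : Prop :=
  ∀ i j, Phi k H (b i ⊗ₜ[k] b j) = b (α i j) ⊗ₜ[k] b (β i j)

variable {b : Module.Basis ι k H} {α β : ι → ι → ι}

theorem Acts.inj (h : Acts b α β) {i j i' j' : ι} (h1 : α i j = α i' j') (h2 : β i j = β i' j') :
    i = i' ∧ j = j' := by
  apply tmul_eq b
  rw [← Psi_Phi (b i ⊗ₜ[k] b j), ← Psi_Phi (b i' ⊗ₜ[k] b j'), h i j, h i' j', h1, h2]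

theorem Acts.mul (h : Acts b α β) (i j : ι) :
    b i * b j = Coalgebra.counit (R := k) (b (α i j)) • b (β i j) := by
  rw [← counit_left_Phi (k := k), h i j]
  simp

theorem Acts.counit (h : Acts b α β) (i j : ι) :
    Coalgebra.counit (R := k) (b j) • b i =
      Coalgebra.counit (R := k) (b (β i j)) • b (α i j) := by
  rw [← counit_right_Phi (k := k), h i j]
  simp

theorem Acts.surj (h : Acts b α β) (p q : ι) : ∃ i j, α i j = p ∧ β i j = q := by
  classical
  by_contra hc
  push Not at hc
  have h0 : ∀ t : H ⊗[k] H, (b.tensorProduct b).repr (Phi k H t) (p, q) = 0 := by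
    intro t
    have ht := (b.tensorProduct b).linearCombination_repr t
    rw [← ht, Finsupp.linearCombination_apply, Finsupp.sum, map_sum, map_sum,
      Finsupp.finsetSum_apply]
    apply Finset.sum_eq_zero
    rintro ⟨i, j⟩ -
    rw [map_smul, map_smul, Module.Basis.tensorProduct_apply, h i j,
      ← Module.Basis.tensorProduct_apply b b, Module.Basis.repr_self, Finsupp.smul_apply,
      Finsupp.single_apply, if_neg, smul_zero]
    rintro heq
    have := Prod.mk.inj heq
    exact hc i j this.1 this.2
  have h1 := h0 (Psi k H (b p ⊗ₜ[k] b q))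
  rw [Phi_Psi, ← Module.Basis.tensorProduct_apply b b, Module.Basis.repr_self,
    Finsupp.single_apply, if_pos rfl] at h1
  exact one_ne_zero h1

theorem one_eq_sum (b : Module.Basis ι k H) :
    (1 : H) = ∑ c ∈ (b.repr 1).support, b.repr 1 c • b c := by
  conv_lhs => rw [← b.linearCombination_repr 1]
  rw [Finsupp.linearCombination_apply, Finsupp.sum]

theorem Acts.unit_part (h : Acts b α β) {i : ι} (hi : b.repr 1 i ≠ 0) (j : ι) :
    β i j = j ∧ b.repr 1 (α i j) = b.repr 1 i := by
  classical
  have h1 := Phi_one_left (k := k) (b j)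
  have h2 : (b.tensorProduct b).repr (Phi k H (1 ⊗ₜ[k] b j)) (α i j, β i j) = b.repr 1 i := by
    conv_lhs => rw [one_eq_sum b]
    rw [TensorProduct.sum_tmul, map_sum, map_sum, Finsupp.finsetSum_apply,
      Finset.sum_eq_single i]
    · rw [← TensorProduct.smul_tmul', map_smul, map_smul, h i j,
        ← Module.Basis.tensorProduct_apply b b, Module.Basis.repr_self, Finsupp.smul_apply,
        Finsupp.single_apply, if_pos rfl, smul_eq_mul, mul_one]
    · intro c _ hc
      rw [← TensorProduct.smul_tmul', map_smul, map_smul, h c j,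
        ← Module.Basis.tensorProduct_apply b b, Module.Basis.repr_self, Finsupp.smul_apply,
        Finsupp.single_apply, if_neg, smul_zero]
      intro heq
      have := Prod.mk.inj heq
      exact hc (h.inj this.1 this.2).1
    · intro hn
      exact absurd (Finsupp.mem_support_iff.mpr hi) hn
  rw [h1, Module.Basis.tensorProduct_repr_tmul_apply, Module.Basis.repr_self,
    Finsupp.single_apply] at h2
  by_cases hj : j = β i j
  · rw [if_pos hj] at h2
    refine ⟨hj.symm, ?_⟩
    simpa using h2
  · rw [if_neg hj] at h2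
    simp at h2
    exact absurd h2.symm hi

theorem repr_smul_basis (b : Module.Basis ι k H) (x : k) (m l : ι) :
    b.repr (x • b m) l = x * (Finsupp.single m (1 : k)) l := by
  rw [map_smul, Module.Basis.repr_self, Finsupp.smul_apply, smul_eq_mul]

theorem Acts.orth (h : Acts b α β) {c d : ι} (hc : b.repr 1 c ≠ 0) (hd : b.repr 1 d ≠ 0) :
    b.repr 1 d * Coalgebra.counit (R := k) (b (α c d)) = (Finsupp.single c (1 : k)) d := by
  classical
  have h1 : b c = ∑ x ∈ (b.repr 1).support,
      (b.repr 1 x * Coalgebra.counit (R := k) (b (α c x))) • b x := by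
    conv_lhs => rw [← mul_one (b c), one_eq_sum b, Finset.mul_sum]
    refine Finset.sum_congr rfl fun x _ => ?_
    rw [mul_smul_comm, h.mul, (h.unit_part hc x).1, smul_smul]
  have h2 : b.repr (b c) d = b.repr 1 d * Coalgebra.counit (R := k) (b (α c d)) := by
    conv_lhs => rw [h1]
    rw [map_sum, Finsupp.finsetSum_apply, Finset.sum_eq_single d]
    · rw [repr_smul_basis, Finsupp.single_eq_same, mul_one]
    · intro x _ hx
      rw [repr_smul_basis, Finsupp.single_apply, if_neg hx, mul_zero]
    · intro hn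
      exact absurd (Finsupp.mem_support_iff.mpr hd) hn
  rw [← h2, Module.Basis.repr_self]

theorem exists_counit_ne_zero (b : Module.Basis ι k H) :
    ∃ e, b.repr 1 e ≠ 0 ∧ Coalgebra.counit (R := k) (b e) ≠ 0 := by
  by_contra hc
  push Not at hc
  have h1 : Coalgebra.counit (R := k) (1 : H) = 0 := by
    rw [one_eq_sum b, map_sum]
    apply Finset.sum_eq_zero
    intro x hx
    rw [map_smul, hc x (Finsupp.mem_support_iff.mp hx), smul_zero]
  rw [Bialgebra.counit_one] at h1
  exact one_ne_zero h1

theorem Acts.coeff (h : Acts b α β) {e : ι} (he : b.repr 1 e ≠ 0)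
    (he' : Coalgebra.counit (R := k) (b e) ≠ 0) {d : ι} (hd : b.repr 1 d ≠ 0) :
    b.repr 1 d * Coalgebra.counit (R := k) (b e) = 1 := by
  classical
  have hmaps : Set.MapsTo (fun c => α c d) ((b.repr 1).support : Set ι)
      ((b.repr 1).support : Set ι) := by
    intro c hc
    have hc' : b.repr 1 c ≠ 0 := Finsupp.mem_support_iff.mp hc
    simp only [Finset.mem_coe, Finsupp.mem_support_iff]
    rw [(h.unit_part hc' d).2]
    exact hc'
  have hinj : Set.InjOn (fun c => α c d) ((b.repr 1).support : Set ι) := by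
    intro c hc c' hc' heq
    have hc1 : b.repr 1 c ≠ 0 := Finsupp.mem_support_iff.mp hc
    have hc2 : b.repr 1 c' ≠ 0 := Finsupp.mem_support_iff.mp hc'
    have := h.inj (i := c) (j := d) (i' := c') (j' := d) heq
      (by rw [(h.unit_part hc1 d).1, (h.unit_part hc2 d).1])
    exact this.1
  have hsurj := Finset.surjOn_of_injOn_of_card_le _ hmaps hinj le_rfl
  obtain ⟨c, hc, hce⟩ := hsurj (Finset.mem_coe.mpr (Finsupp.mem_support_iff.mpr he))
  have hc1 : b.repr 1 c ≠ 0 := Finsupp.mem_support_iff.mp hc
  have h2 := h.orth hc1 hd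
  simp only at hce
  rw [hce] at h2
  rw [h2]
  by_cases hcd : c = d
  · rw [hcd, Finsupp.single_eq_same]
  · rw [Finsupp.single_apply, if_neg hcd] at h2
    exact absurd h2 (mul_ne_zero hd he')

/-- Rescaling a basis by a nonzero scalar. -/
noncomputable def rescale (b : Module.Basis ι k H) (c : k) (hc : c ≠ 0) : Module.Basis ι k H :=
  b.map (LinearEquiv.smulOfNeZero k H c hc)

theorem rescale_apply (b : Module.Basis ι k H) (c : k) (hc : c ≠ 0) (i : ι) :
    rescale b c hc i = c • b i := by
  simp [rescale]

theorem Acts.rescale (h : Acts b α β) (c : k) (hc : c ≠ 0) : Acts (rescale b c hc) α β := by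
  intro i j
  simp only [rescale_apply]
  rw [TensorProduct.smul_tmul_smul, map_smul, h i j, TensorProduct.smul_tmul_smul]

theorem repr_one_rescale (b : Module.Basis ι k H) (c : k) (hc : c ≠ 0) (i : ι) :
    (rescale b c hc).repr 1 i = c⁻¹ * b.repr 1 i := by
  have h : (LinearEquiv.smulOfNeZero k H c hc).symm 1 = c⁻¹ • (1 : H) := by
    rw [LinearEquiv.symm_apply_eq, LinearEquiv.smulOfNeZero_apply, smul_smul, mul_inv_cancel₀ hc,
      one_smul]
  rw [PositiveBasis.rescale, Module.Basis.map_repr, LinearEquiv.trans_apply, h, map_smul,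
    Finsupp.smul_apply, smul_eq_mul]

/-- The normalisation hypothesis. -/
def Normal (b : Module.Basis ι k H) : Prop := ∀ i, b.repr 1 i = 0 ∨ b.repr 1 i = 1

theorem Acts.exists_normal (h : Acts b α β) : ∃ (c : k) (hc : c ≠ 0),
    Normal (PositiveBasis.rescale b c hc) := by
  obtain ⟨e, he, he'⟩ := exists_counit_ne_zero (k := k) b
  refine ⟨(Coalgebra.counit (R := k) (b e))⁻¹, inv_ne_zero he', fun i => ?_⟩
  rw [repr_one_rescale, inv_inv]
  by_cases hi : b.repr 1 i = 0
  · left
    rw [hi, mul_zero]
  · right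
    rw [mul_comm]
    exact h.coeff he he' hi

theorem Normal.one_eq (hn : Normal b) : (1 : H) = ∑ c ∈ (b.repr 1).support, b c := by
  conv_lhs => rw [one_eq_sum b]
  refine Finset.sum_congr rfl fun c hc => ?_
  rcases hn c with h0 | h1
  · exact absurd h0 (Finsupp.mem_support_iff.mp hc)
  · rw [h1, one_smul]

theorem Acts.mul_orth (h : Acts b α β) (hn : Normal b) {c d : ι} (hc : b.repr 1 c ≠ 0)
    (hd : b.repr 1 d ≠ 0) : b c * b d = (Finsupp.single c (1 : k)) d • b d := by
  have h1 := h.orth hc hd
  rcases hn d with h0 | h2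
  · exact absurd h0 hd
  · rw [h2, one_mul] at h1
    rw [h.mul, h1, (h.unit_part hc d).1]

/-- `ε (b (α i c)) ∈ {0, 1}` for every `c` in the support of `1`. -/
theorem Acts.mu (h : Acts b α β) (hn : Normal b) (i : ι) {c : ι} (hc : b.repr 1 c ≠ 0) :
    Coalgebra.counit (R := k) (b (α i c)) = 0 ∨ Coalgebra.counit (R := k) (b (α i c)) = 1 := by
  classical
  by_cases hmu : Coalgebra.counit (R := k) (b (α i c)) = 0
  · exact Or.inl hmu
  right
  -- multiplication by elements of the support of `1`
  have hmul : ∀ x d : ι, b.repr 1 x ≠ 0 → b.repr 1 d ≠ 0 →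
      Coalgebra.counit (R := k) (b (α i x)) ≠ 0 →
      b (β i x) * b d = (Finsupp.single x (1 : k)) d • b (β i x) := by
    intro x d hx hd hmx
    have h1 : (b i * b x) * b d = b i * (b x * b d) := mul_assoc _ _ _
    rw [h.mul_orth hn hx hd, mul_smul_comm, h.mul i x, smul_mul_assoc] at h1
    by_cases hxd : x = d
    · subst hxd
      rw [Finsupp.single_eq_same, one_smul, h.mul i x] at h1
      rw [Finsupp.single_eq_same, one_smul]
      exact smul_right_injective H hmx h1
    · rw [Finsupp.single_apply, if_neg hxd, zero_smul] at h1 ⊢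
      exact (smul_eq_zero.mp h1).resolve_left hmx
  have h1 : b i = ∑ x ∈ (b.repr 1).support,
      Coalgebra.counit (R := k) (b (α i x)) • b (β i x) := by
    conv_lhs => rw [← mul_one (b i), hn.one_eq, Finset.mul_sum]
    refine Finset.sum_congr rfl fun x _ => ?_
    rw [h.mul]
  have h2 : b.repr (b i) (β i c) = Coalgebra.counit (R := k) (b (α i c)) := by
    conv_lhs => rw [h1]
    rw [map_sum, Finsupp.finsetSum_apply, Finset.sum_eq_single c]
    · rw [repr_smul_basis, Finsupp.single_eq_same, mul_one]
    · intro x hx hxc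
      rw [repr_smul_basis]
      by_cases hmx : Coalgebra.counit (R := k) (b (α i x)) = 0
      · rw [hmx, zero_mul]
      · rw [Finsupp.single_apply, if_neg, mul_zero]
        intro heq
        have hx' := Finsupp.mem_support_iff.mp hx
        have e1 := hmul x x hx' hx' hmx
        have e2 := hmul c x hc hx' hmu
        rw [heq, Finsupp.single_eq_same, one_smul] at e1
        rw [Finsupp.single_apply, if_neg (fun hh => hxc hh.symm), zero_smul] at e2
        rw [e1] at e2
        exact b.ne_zero _ e2
    · intro hn'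
      exact absurd (Finsupp.mem_support_iff.mpr hc) hn'
  rw [Module.Basis.repr_self, Finsupp.single_apply] at h2
  by_cases hi : i = β i c
  · rw [if_pos hi] at h2
    exact h2.symm
  · rw [if_neg hi] at h2
    exact absurd h2.symm hmu

theorem Acts.counit_zero_one (h : Acts b α β) (hn : Normal b) (i : ι) :
    Coalgebra.counit (R := k) (b i) = 0 ∨ Coalgebra.counit (R := k) (b i) = 1 := by
  classical
  obtain ⟨e, he, he'⟩ := exists_counit_ne_zero (k := k) b
  have h1 := h.counit i e
  have h2 : α i e = i := by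
    by_contra hne
    have h3 := congrArg (fun x => b.repr x i) h1
    simp only [repr_smul_basis] at h3
    rw [Finsupp.single_eq_same, mul_one, Finsupp.single_apply, if_neg hne, mul_zero] at h3
    exact he' h3
  have h3 := h.mu hn i he
  rwa [h2] at h3

theorem Acts.positive (h : Acts b α β) (hn : Normal b) (σ : k →+* ℂ) :
    IsPositiveBasis k H σ b := by
  classical
  have hsingle : ∀ (ι' : Type w) (m l : ι'), (Finsupp.single m (1 : k)) l = 0 ∨
      (Finsupp.single m (1 : k)) l = 1 := by
    intro ι' m l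
    rw [Finsupp.single_apply]
    split_ifs
    · exact Or.inr rfl
    · exact Or.inl rfl
  have hprod : ∀ x y : k, (x = 0 ∨ x = 1) → (y = 0 ∨ y = 1) → (x * y = 0 ∨ x * y = 1) := by
    rintro x y (rfl | rfl) (rfl | rfl) <;> simp
  refine ⟨fun i => nonneg_zero_one σ (hn i), fun i => nonneg_zero_one σ (h.counit_zero_one hn i),
    fun i j l => ?_, fun i l m => ?_, fun i l => ?_⟩
  · rw [h.mul, repr_smul_basis]
    exact nonneg_zero_one σ (hprod _ _ (h.counit_zero_one hn _) (hsingle _ _ _))
  · rw [← Phi_one_right, hn.one_eq, TensorProduct.tmul_sum, map_sum, map_sum,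
      Finsupp.finsetSum_apply]
    apply nonneg_sum
    intro c _
    rw [h i c, ← Module.Basis.tensorProduct_apply b b, Module.Basis.repr_self]
    exact nonneg_zero_one σ (hsingle _ _ _)
  · have h1 : HopfAlgebra.antipode k (b i) =
        TensorProduct.lid k H (LinearMap.rTensor H (Coalgebra.counit (R := k) (A := H))
          (Psi k H (b i ⊗ₜ[k] (1 : H)))) := by
      rw [counit_left_Psi, mul_one]
    rw [h1, hn.one_eq, TensorProduct.tmul_sum, map_sum, map_sum, map_sum, map_sum,
      Finsupp.finsetSum_apply]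
    apply nonneg_sum
    intro c _
    obtain ⟨p, q, hp, hq⟩ := h.surj i c
    rw [← hp, ← hq, ← h p q, Psi_Phi, LinearMap.rTensor_tmul, TensorProduct.lid_tmul,
      repr_smul_basis]
    exact nonneg_zero_one σ (hprod _ _ (h.counit_zero_one hn _) (hsingle _ _ _))

end Main

/-- If a Hopf algebra `H` over a field `k` embedded in `ℂ` has a `Φ`-set theoretic basis `b`,
then a nonzero scalar multiple of `b` is a positive basis of `H`. -/
theorem result {k : Type u} {H : Type v} [Field k] [Ring H] [HopfAlgebra k H] {ι : Type w}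
    (σ : k →+* ℂ) (b : Module.Basis ι k H) (hb : IsPhiSetTheoretic k H b) :
    ∃ b' : Module.Basis ι k H, (∃ c : k, c ≠ 0 ∧ ∀ i, b' i = c • b i) ∧
      IsPositiveBasis k H σ b' := by
  choose α β hαβ using hb
  have h : Acts b α β := hαβ
  obtain ⟨c, hc, hn⟩ := h.exists_normal
  exact ⟨rescale b c hc, ⟨c, hc, fun i => rescale_apply b c hc i⟩,
    (h.rescale c hc).positive hn σ⟩

end Pool.Agent.Results.MP_078f6d_al.PositiveBasis
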